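import Pool.Agent.H37.Fo3

set_option autoImplicit false

open Pool.Agent.H37

/-- Every oracle is simulated by finite conditions of length `O(n² 2ⁿ)`; for some oracle the
length is at least `2ⁿ` over a polynomial, so no polynomial bound is possible. -/
theorem Pool.Agent.Results.MP_d04dff_lc.Simulate.result
    (V : List Bool × List Bool →. List Bool) (hV : Fo.OptC V) :
    (∀ X U, Fo.OptO X U → ∃ c : ℕ, ∀ n, 1 ≤ n → ∃ x : List Bool,
      x.length ≤ c * n ^ 2 * 2 ^ n ∧ Fo.Close V U c n x) ∧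
    ∃ X, ∀ U, Fo.OptO X U → ∀ c : ℕ,
      (∃ d : ℕ, ∀ n, 2 ≤ n → ∀ x, Fo.Close V U c n x → 2 ^ n ≤ n ^ d * (x.length + 1)) ∧
      ∀ q : Polynomial ℕ, ¬ ∀ n, 1 ≤ n → ∃ x : List Bool,
        x.length ≤ q.eval n ∧ Fo.Close V U c n x :=
  ⟨fun _ _ hU => Fo.upper hV hU, (Fo.lower V hV).imp fun _ h U hU c =>
    ⟨h U hU c, fun q => let ⟨_, hd⟩ := h U hU c; Fo.no_poly hd q⟩⟩
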